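import Pool.Agent.Results.MP_898cae_lc.PropTEqContinuum

/-!
# Many algebras with property (T)

For an ideal `I` of subsets of `ℕ` all of whose members miss infinitely many blocks `[n, 2n]` an
algebra `BB I` with property (T) is constructed.
-/

set_option autoImplicit false

open MeasureTheory Cardinal Set
open Pool.Agent.Results.MP_898cae_lc.PropTEqContinuum

namespace Pool.Agent.Y418.PT

/-- the points whose first zero is at `n` -/
def cc (n : ℕ) : Set Cantor := {x | (∀ i < n, x i = true) ∧ x n = false}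

/-- for `n ∈ S` the half of `cc n` where the next coordinate is `0` -/
def AA (S : Set ℕ) : Set Cantor := {x | ∃ n ∈ S, x ∈ cc n ∧ x (n + 1) = false}

theorem cc_unique {x : Cantor} {m n : ℕ} (hm : x ∈ cc m) (hn : x ∈ cc n) : m = n := by
  rcases lt_trichotomy m n with h | h | h
  · have h1 := hn.1 m h
    have h2 := hm.2
    rw [h1] at h2
    exact absurd h2 (by simp)
  · exact h
  · have h1 := hm.1 n h
    have h2 := hn.2
    rw [h1] at h2
    exact absurd h2 (by simp)

/-- Every point which has a zero at some place `≤ n` lies in some `cc j` with `j ≤ n`. -/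
theorem exists_cc {x : Cantor} {n : ℕ} (h : ∃ i ≤ n, x i = false) : ∃ j ≤ n, x ∈ cc j := by
  classical
  have h' : ∃ i, x i = false := by
    obtain ⟨i, _, hi⟩ := h
    exact ⟨i, hi⟩
  refine ⟨Nat.find h', ?_, ?_, Nat.find_spec h'⟩
  · obtain ⟨i, hi, hxi⟩ := h
    exact (Nat.find_min' h' hxi).trans hi
  · intro i hi
    have := Nat.find_min h' hi
    simpa using this

theorem mem_cc_of_agree {x y : Cantor} {j n : ℕ} (hx : x ∈ cc j) (hj : j ≤ n)
    (h : ∀ i ≤ n, y i = x i) : y ∈ cc j := by
  refine ⟨fun i hi => ?_, ?_⟩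
  · rw [h i (by omega)]
    exact hx.1 i hi
  · rw [h j hj]
    exact hx.2

theorem mem_AA {S : Set ℕ} {x : Cantor} {j : ℕ} (hx : x ∈ cc j) :
    x ∈ AA S ↔ j ∈ S ∧ x (j + 1) = false := by
  constructor
  · rintro ⟨n, hn, h1, h2⟩
    rw [cc_unique hx h1]
    exact ⟨hn, h2⟩
  · rintro ⟨h1, h2⟩
    exact ⟨j, h1, hx, h2⟩

/-- `A` depends only on the coordinates `≤ n`. -/
def Lev (n : ℕ) (A : Set Cantor) : Prop := ∀ x y : Cantor, (∀ i ≤ n, y i = x i) → (x ∈ A ↔ y ∈ A)

theorem clopen_of_level {A : Set Cantor} {n : ℕ} (h : Lev n A) : IsClopen A := by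
  let r : Cantor → (Fin (n + 1) → Bool) := fun x i => x i
  have hr : Continuous r := continuous_pi fun i => continuous_apply _
  have e : A = r ⁻¹' (r '' A) := by
    ext x
    constructor
    · intro hx
      exact ⟨x, hx, rfl⟩
    · rintro ⟨y, hy, hxy⟩
      refine (h y x ?_).1 hy
      intro i hi
      have := congrFun hxy ⟨i, by omega⟩
      exact this.symm
  rw [e]
  exact (isClopen_discrete _).preimage hr

/-- The condition defining the algebra. -/
def Cond (N : ℕ) (τ : Prop) (S : Set ℕ) (A : Set Cantor) : Prop :=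
  (∀ j, ∀ x ∈ cc j, ∀ y ∈ cc j, (∀ i ≤ max N (j + 1), y i = x i) → (x ∈ A ↔ y ∈ A)) ∧
    (∀ j ≥ N, j ∉ S → ∀ x ∈ cc j, (x ∈ A ↔ τ))

theorem Cond.mono {N N' : ℕ} {τ : Prop} {S S' : Set ℕ} {A : Set Cantor} (h : Cond N τ S A)
    (hN : N ≤ N') (hS : S ⊆ S') : Cond N' τ S' A := by
  refine ⟨fun j x hx y hy hxy => h.1 j x hx y hy fun i hi => hxy i ?_,
    fun j hj hjS => h.2 j (hN.trans hj) fun h' => hjS (hS h')⟩
  exact hi.trans (max_le_max hN le_rfl)

def BB (I : Set (Set ℕ)) : Set (Set Cantor) :=
  {A | ∃ N : ℕ, ∃ τ : Prop, ∃ S ∈ I, Cond N τ S A}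

structure Good (I : Set (Set ℕ)) : Prop where
  empty : ∅ ∈ I
  union : ∀ S ∈ I, ∀ T ∈ I, S ∪ T ∈ I
  gap : ∀ S ∈ I, ∀ K : ℕ, ∃ n ≥ K, ∀ j, n ≤ j → j ≤ 2 * n → j ∉ S

theorem borel_of_cond {N : ℕ} {τ : Prop} {S : Set ℕ} {A : Set Cantor} (h : Cond N τ S A) :
    MeasurableSet[borel Cantor] A := by
  have h1 : ∀ j, MeasurableSet[borel Cantor] (A ∩ cc j) := by
    intro j
    apply borel_of_clopen
    apply clopen_of_level (n := max N (j + 1))
    intro x y hxy
    constructor
    · rintro ⟨hx, hx'⟩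
      have hy := mem_cc_of_agree hx' (by omega : j ≤ max N (j + 1)) hxy
      exact ⟨(h.1 j x hx' y hy hxy).1 hx, hy⟩
    · rintro ⟨hy, hy'⟩
      have hx := mem_cc_of_agree hy' (by omega : j ≤ max N (j + 1)) fun i hi => (hxy i hi).symm
      exact ⟨(h.1 j x hx y hy' hxy).2 hy, hx⟩
  have h2 : MeasurableSet[borel Cantor] (A ∩ {fun _ => true}) := by
    rcases Set.eq_empty_or_nonempty (A ∩ {fun _ => true}) with h3 | ⟨x, hx⟩
    · rw [h3]
      exact borel_of_clopen isClopen_empty
    · have h3 : A ∩ {fun _ => true} = {fun _ => true} := by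
        apply Set.inter_eq_right.2
        rw [Set.singleton_subset_iff]
        have h4 := hx.2
        rw [Set.mem_singleton_iff] at h4
        rw [← h4]
        exact hx.1
      rw [h3]
      rw [← BorelSpace.measurable_eq (α := Cantor)]
      exact MeasurableSet.singleton _
  have h3 : A = (⋃ j, A ∩ cc j) ∪ (A ∩ {fun _ => true}) := by
    ext x
    constructor
    · intro hx
      by_cases h4 : ∃ i, x i = false
      · obtain ⟨i, hi⟩ := h4
        obtain ⟨j, _, hj⟩ := exists_cc ⟨i, le_rfl, hi⟩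
        exact Or.inl (Set.mem_iUnion.2 ⟨j, hx, hj⟩)
      · right
        refine ⟨hx, ?_⟩
        rw [Set.mem_singleton_iff]
        funext i
        by_contra h5
        exact h4 ⟨i, by simpa using h5⟩
    · rintro (hx | hx)
      · obtain ⟨j, hj⟩ := Set.mem_iUnion.1 hx
        exact hj.1
      · exact hx.1
  rw [h3]
  exact (MeasurableSet.iUnion h1).union h2

theorem isAlg_BB {I : Set (Set ℕ)} (hI : Good I) : IsAlg (BB I) where
  borel := by
    rintro A ⟨N, τ, S, _, h⟩
    exact borel_of_cond h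
  clopen := by
    intro A hA
    obtain ⟨N, hN⟩ := clopen_level hA
    refine ⟨N + 1, (fun _ => true) ∈ A, ∅, hI.empty, ?_, ?_⟩
    · intro j x _ y _ hxy
      exact hN (max (N + 1) (j + 1)) (by omega) x y hxy
    · intro j hj _ x hx
      have := hN N le_rfl (fun _ => true) x fun i hi => hx.1 i (by omega)
      exact this.symm
  compl := by
    rintro A ⟨N, τ, S, hS, h1, h2⟩
    refine ⟨N, ¬ τ, S, hS, ?_, ?_⟩
    · intro j x hx y hy hxy
      exact not_congr (h1 j x hx y hy hxy)
    · intro j hj hjS x hx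
      exact not_congr (h2 j hj hjS x hx)
  union := by
    rintro A ⟨N, τ, S, hS, h⟩ A' ⟨N', τ', S', hS', h'⟩
    have g := h.mono (le_max_left N N') (Set.subset_union_left (s := S) (t := S'))
    have g' := h'.mono (le_max_right N N') (Set.subset_union_right (s := S) (t := S'))
    refine ⟨max N N', τ ∨ τ', S ∪ S', hI.union _ hS _ hS', ?_, ?_⟩
    · intro j x hx y hy hxy
      exact or_congr (g.1 j x hx y hy hxy) (g'.1 j x hx y hy hxy)
    · intro j hj hjS x hx
      exact or_congr (g.2 j hj hjS x hx) (g'.2 j hj hjS x hx)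

/-! ### Measures -/

theorem lam_atom (n : ℕ) (x : Cantor) : lam (atom n x) = 2⁻¹ ^ (n + 1) := by
  classical
  have h1 : atom n x = Set.pi (Finset.range (n + 1) : Finset ℕ) (fun i => {x i}) := by
    ext y
    simp only [atom, Set.mem_setOf_eq, Set.mem_pi, Finset.coe_range, Set.mem_Iio,
      Set.mem_singleton_iff]
    constructor
    · intro h i hi
      exact h i (by omega)
    · intro h i hi
      exact h i (by omega)
  rw [h1]
  unfold lam
  rw [Measure.infinitePi_pi _ (fun i _ => MeasurableSet.singleton _)]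
  simp only [coin_singleton, Finset.prod_const]
  rw [Finset.card_range]

theorem real_atom (n : ℕ) (x : Cantor) : lam.real (atom n x) = 2⁻¹ ^ (n + 1) := by
  rw [measureReal_def, lam_atom]
  simp

theorem real_atom_inter (n : ℕ) (x : Cantor) (m : ℕ) (hm : n < m) (b : Bool) :
    lam.real (atom n x ∩ V m b) = 2⁻¹ ^ (n + 2) := by
  rw [measureReal_def, lam_atom_inter n x m hm]
  simp

/-- A set of level `n` is cut into two equal halves by every later coordinate. -/
theorem lev_half {E : Set Cantor} {n m : ℕ} (hE : Lev n E) (hm : n < m) :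
    lam (E ∩ V m false) = lam (E ∩ V m true) := by
  classical
  let ext : (Fin (n + 1) → Bool) → Cantor := fun p i => if h : i < n + 1 then p ⟨i, h⟩ else false
  have hext : ∀ p, ∀ i (h : i < n + 1), ext p i = p ⟨i, h⟩ := by
    intro p i h
    simp only [ext]
    rw [dif_pos h]
  have key : ∀ b : Bool, lam (E ∩ V m b) =
      ∑ p ∈ Finset.univ.filter (fun p => ext p ∈ E), (2⁻¹ : ENNReal) ^ (n + 2) := by
    intro b
    have h1 : E ∩ V m b = ⋃ p ∈ Finset.univ.filter (fun p => ext p ∈ E),
        (atom n (ext p) ∩ V m b) := by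
      ext y
      simp only [Set.mem_inter_iff, Set.mem_iUnion, Finset.mem_filter, Finset.mem_univ, true_and,
        exists_prop]
      constructor
      · rintro ⟨h2, h3⟩
        have h4 : ∀ i ≤ n, y i = ext (fun i => y i) i := by
          intro i hi
          exact (hext (fun i : Fin (n + 1) => y i) i (by omega)).symm
        exact ⟨fun i => y i, (hE _ _ h4).2 h2, h4, h3⟩
      · rintro ⟨p, h2, h3, h4⟩
        exact ⟨(hE _ _ h3).1 h2, h4⟩
    rw [h1, measure_biUnion_finset]
    · exact Finset.sum_congr rfl fun p _ => lam_atom_inter n _ m hm b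
    · intro p _ q _ hpq
      rw [Function.onFun, Set.disjoint_left]
      rintro y ⟨h2, _⟩ ⟨h3, _⟩
      apply hpq
      funext i
      have h4 := h2 i (by omega)
      have h5 := h3 i (by omega)
      rw [hext _ _ i.2] at h4 h5
      exact h4.symm.trans h5
    · intro p _
      have h2 : IsClopen (atom n (ext p) ∩ V m b) := by
        apply clopen_of_level (n := m)
        intro x y hxy
        simp only [atom, V, Set.mem_inter_iff, Set.mem_setOf_eq]
        constructor
        · rintro ⟨h2, h3⟩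
          exact ⟨fun i hi => (hxy i (by omega)).trans (h2 i hi), (hxy m le_rfl).trans h3⟩
        · rintro ⟨h2, h3⟩
          exact ⟨fun i hi => (hxy i (by omega)).symm.trans (h2 i hi), (hxy m le_rfl).symm.trans h3⟩
      exact h2.isOpen.measurableSet
  rw [key, key]

end Pool.Agent.Y418.PT
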