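import Pool.Agent.Y418.PT.Core

/-!
# Property (T) of the algebras `BB I`, and incompatible sets
-/

set_option autoImplicit false

open MeasureTheory Cardinal Set
open Pool.Agent.Results.MP_898cae_lc.PropTEqContinuum

namespace Pool.Agent.Y418.PT

/-- the points with ones at all places `≤ q` -/
def RR (q : ℕ) : Set Cantor := atom q (fun _ => true)

theorem real_RR (q : ℕ) : lam.real (RR q) = 2⁻¹ ^ (q + 1) := real_atom q _

theorem not_mem_RR {x : Cantor} {q : ℕ} (h : x ∉ RR q) : ∃ j ≤ q, x ∈ cc j := by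
  apply exists_cc
  by_contra h'
  apply h
  intro i hi
  by_contra h2
  exact h' ⟨i, hi, by simpa using h2⟩

theorem phi_le {X E : Set Cantor} {q m k : ℕ} (hE : Lev k E) (hk : k < m)
    (hXE : ∀ y, y ∉ RR q → (y ∈ X ↔ y ∈ E)) : phi m X ≤ 2⁻¹ ^ q := by
  have h1 : ∀ b : Bool, lam.real (X ∩ V m b) ≤ lam.real (E ∩ V m b) + lam.real (RR q) := by
    intro b
    refine (measureReal_mono ?_ (measure_ne_top _ _)).trans (measureReal_union_le _ _)
    rintro y ⟨hy1, hy2⟩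
    by_cases hy : y ∈ RR q
    · exact Or.inr hy
    · exact Or.inl ⟨(hXE y hy).1 hy1, hy2⟩
  have h2 : ∀ b : Bool, lam.real (E ∩ V m b) ≤ lam.real (X ∩ V m b) + lam.real (RR q) := by
    intro b
    refine (measureReal_mono ?_ (measure_ne_top _ _)).trans (measureReal_union_le _ _)
    rintro y ⟨hy1, hy2⟩
    by_cases hy : y ∈ RR q
    · exact Or.inr hy
    · exact Or.inl ⟨(hXE y hy).2 hy1, hy2⟩
  have h3 : lam.real (E ∩ V m false) = lam.real (E ∩ V m true) := by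
    rw [measureReal_def, measureReal_def, lev_half hE hk]
  have h4 : (2⁻¹ : ℝ) ^ q = 2 * lam.real (RR q) := by
    rw [real_RR, pow_succ]
    ring
  rw [h4]
  unfold phi
  rw [abs_le]
  have := h1 false
  have := h1 true
  have := h2 false
  have := h2 true
  constructor <;> linarith

theorem numeric (ε : ℝ) (hε : 0 < ε) : ∃ K : ℕ, 1 ≤ K ∧ ∀ r : ℕ, K ≤ r → 16 * (r : ℝ) ≤ ε * 2 ^ r := by
  have h1 : Filter.Tendsto (fun n : ℕ => (n : ℝ) ^ 1 * (2⁻¹ : ℝ) ^ n) Filter.atTop (nhds 0) :=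
    tendsto_pow_const_mul_const_pow_of_abs_lt_one 1 (by rw [abs_of_pos] <;> norm_num)
  have h2 := (h1.eventually (gt_mem_nhds (show (0 : ℝ) < ε / 16 by positivity)))
  obtain ⟨K, hK⟩ := Filter.eventually_atTop.1 h2
  refine ⟨max K 1, le_max_right _ _, fun r hr => ?_⟩
  have h3 := hK r ((le_max_left _ _).trans hr)
  rw [pow_one, inv_pow] at h3
  have h4 : (0 : ℝ) < 2 ^ r := by positivity
  have h5 : (r : ℝ) * (2 ^ r)⁻¹ * 2 ^ r = r := by
    field_simp
  have h6 : (r : ℝ) * (2 ^ r)⁻¹ * 2 ^ r < ε / 16 * 2 ^ r := mul_lt_mul_of_pos_right h3 h4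
  rw [h5] at h6
  linarith

/-- the two estimates used below -/
theorem est_one {ε : ℝ} {n m : ℕ} (hn : 1 ≤ n) (h : 16 * (n : ℝ) ≤ ε * 2 ^ n)
    (hm : 0 < m) (hm2 : m ≤ 2 * n + 1) : (2⁻¹ : ℝ) ^ (2 * n) ≤ ε * 2⁻¹ ^ (n + 1) / m := by
  have h1 : (0 : ℝ) < m := by exact_mod_cast hm
  rw [le_div_iff₀ h1]
  have h2 : (m : ℝ) ≤ 2 * n + 1 := by exact_mod_cast hm2
  have h3 : (1 : ℝ) ≤ n := by exact_mod_cast hn
  have h4 : (2⁻¹ : ℝ) ^ (2 * n) = 2⁻¹ ^ n * 2⁻¹ ^ n := by
    rw [two_mul, pow_add]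
  have h5 : (0 : ℝ) < 2⁻¹ ^ n := by positivity
  have h6 : (2⁻¹ : ℝ) ^ n * 2 ^ n = 1 := by
    rw [← mul_pow]
    norm_num
  have h7 : (2⁻¹ : ℝ) ^ n * (16 * n) ≤ ε := by
    calc (2⁻¹ : ℝ) ^ n * (16 * n) ≤ 2⁻¹ ^ n * (ε * 2 ^ n) := by
          exact mul_le_mul_of_nonneg_left h h5.le
      _ = ε := by rw [mul_comm ε, ← mul_assoc, h6, one_mul]
  rw [h4, pow_succ]
  have h8 : (2⁻¹ : ℝ) ^ n * m ≤ ε * 2⁻¹ := by
    have : (2⁻¹ : ℝ) ^ n * m ≤ 2⁻¹ ^ n * (8 * n) :=
      mul_le_mul_of_nonneg_left (by linarith) h5.le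
    linarith
  calc (2⁻¹ : ℝ) ^ n * 2⁻¹ ^ n * m = 2⁻¹ ^ n * (2⁻¹ ^ n * m) := by ring
    _ ≤ 2⁻¹ ^ n * (ε * 2⁻¹) := mul_le_mul_of_nonneg_left h8 h5.le
    _ = ε * (2⁻¹ ^ n * 2⁻¹) := by ring

theorem est_two {ε : ℝ} {n m : ℕ} (hm : 2 * n + 2 ≤ m)
    (h : 16 * ((m - n : ℕ) : ℝ) ≤ ε * 2 ^ (m - n)) :
    (2⁻¹ : ℝ) ^ (m - 2) ≤ ε * 2⁻¹ ^ (n + 1) / m := by
  obtain ⟨r, rfl⟩ : ∃ r, m = n + r := ⟨m - n, by omega⟩
  have h0 : n + r - n = r := by omega
  rw [h0] at h
  have h1 : (0 : ℝ) < ((n + r : ℕ) : ℝ) := by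
    have : 0 < n + r := by omega
    exact_mod_cast this
  rw [le_div_iff₀ h1]
  obtain ⟨s, rfl⟩ : ∃ s, r = s + 2 := ⟨r - 2, by omega⟩
  have h2 : n + (s + 2) - 2 = n + s := by omega
  rw [h2, pow_add]
  have h3 : ((n + (s + 2) : ℕ) : ℝ) ≤ 2 * ((s + 2 : ℕ) : ℝ) := by
    have : n + (s + 2) ≤ 2 * (s + 2) := by omega
    exact_mod_cast this
  have h5 : (0 : ℝ) < 2⁻¹ ^ n := by positivity
  have h6 : (0 : ℝ) < 2⁻¹ ^ s := by positivity
  have h7 : (2⁻¹ : ℝ) ^ s * 2 ^ (s + 2) = 4 := by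
    rw [pow_add, ← mul_assoc, ← mul_pow]
    norm_num
  have h8 : (2⁻¹ : ℝ) ^ s * (16 * ((s + 2 : ℕ) : ℝ)) ≤ ε * 4 := by
    calc (2⁻¹ : ℝ) ^ s * (16 * ((s + 2 : ℕ) : ℝ)) ≤ 2⁻¹ ^ s * (ε * 2 ^ (s + 2)) :=
          mul_le_mul_of_nonneg_left h h6.le
      _ = ε * (2⁻¹ ^ s * 2 ^ (s + 2)) := by ring
      _ = ε * 4 := by rw [h7]
  have h9 : (2⁻¹ : ℝ) ^ s * ((n + (s + 2) : ℕ) : ℝ) ≤ ε * 2⁻¹ := by
    have : (2⁻¹ : ℝ) ^ s * ((n + (s + 2) : ℕ) : ℝ) ≤ 2⁻¹ ^ s * (2 * ((s + 2 : ℕ) : ℝ)) :=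
      mul_le_mul_of_nonneg_left h3 h6.le
    linarith
  calc (2⁻¹ : ℝ) ^ n * 2⁻¹ ^ s * ((n + (s + 2) : ℕ) : ℝ)
      = 2⁻¹ ^ n * (2⁻¹ ^ s * ((n + (s + 2) : ℕ) : ℝ)) := by ring
    _ ≤ 2⁻¹ ^ n * (ε * 2⁻¹) := mul_le_mul_of_nonneg_left h9 h5.le
    _ = ε * 2⁻¹ ^ (n + 1) := by rw [pow_succ]; ring

/-- Property (T) for one set at a level whose block is missed by `S`. -/
theorem good_level {N : ℕ} {τ : Prop} {S : Set ℕ} {A : Set Cantor} (h : Cond N τ S A) {ε : ℝ}
    (hε : 0 < ε) {n : ℕ} (hn : N ≤ n) (hn1 : 1 ≤ n)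
    (hnum : ∀ r : ℕ, n ≤ r → 16 * (r : ℝ) ≤ ε * 2 ^ r)
    (hgap : ∀ j, n ≤ j → j ≤ 2 * n → j ∉ S) (x : Cantor) :
    (lam.real (A ∩ atom n x) ≤ ε * lam.real (atom n x) / n ∨
        lam.real (atom n x \ A) ≤ ε * lam.real (atom n x) / n) ∧
      ∀ m > n, phi m (A ∩ atom n x) ≤ ε * lam.real (atom n x) / m := by
  classical
  have hnn : ∀ k : ℕ, 0 ≤ ε * lam.real (atom n x) / k := fun k => by positivity
  by_cases hx : ∃ i ≤ n, x i = false
  · -- the atom is on one side of `A`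
    obtain ⟨j, hj, hxj⟩ := exists_cc hx
    have hside : ∀ y ∈ atom n x, (x ∈ A ↔ y ∈ A) := by
      intro y hy
      have hyj : y ∈ cc j := mem_cc_of_agree hxj hj hy
      rcases Nat.lt_or_ge j n with hlt | hge
      · exact h.1 j x hxj y hyj fun i hi => hy i (by omega)
      · have hjn : j = n := by omega
        subst hjn
        exact (h.2 j hn (hgap j le_rfl (by omega)) x hxj).trans
          (h.2 j hn (hgap j le_rfl (by omega)) y hyj).symm
    by_cases hxA : x ∈ A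
    · have e : A ∩ atom n x = atom n x := Set.inter_eq_right.2 fun y hy => (hside y hy).1 hxA
      have e' : atom n x \ A = ∅ := by
        rw [Set.eq_empty_iff_forall_notMem]
        rintro y ⟨hy1, hy2⟩
        exact hy2 ((hside y hy1).1 hxA)
      refine ⟨Or.inr (by rw [e', measureReal_empty]; exact hnn _), fun m hm => ?_⟩
      rw [e, phi_atom _ _ _ hm]
      exact hnn m
    · have e : A ∩ atom n x = ∅ := by
        rw [Set.eq_empty_iff_forall_notMem]
        rintro y ⟨hy1, hy2⟩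
        exact hxA ((hside y hy2).2 hy1)
      refine ⟨Or.inl (by rw [e, measureReal_empty]; exact hnn _), fun m hm => ?_⟩
      rw [e]
      unfold phi
      simpa using hnn m
  · -- the atom of the point `1^∞`
    have hx1 : ∀ i ≤ n, x i = true := by
      intro i hi
      by_contra h2
      exact hx ⟨i, hi, by simpa using h2⟩
    have hat : ∀ y ∈ atom n x, ∀ i ≤ n, y i = true := fun y hy i hi => (hy i hi).trans (hx1 i hi)
    have hcc : ∀ y ∈ atom n x, ∀ j, y ∈ cc j → n < j := by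
      intro y hy j hj
      by_contra hlt
      have h1 := hat y hy j (by omega)
      rw [hj.2] at h1
      exact absurd h1 (by simp)
    have hnumn := hnum n le_rfl
    have hout : ∀ y ∈ atom n x, y ∉ RR (2 * n) → (y ∈ A ↔ τ) := by
      intro y hy hyR
      obtain ⟨j, hj, hyj⟩ := not_mem_RR hyR
      have := hcc y hy j hyj
      exact h.2 j (by omega) (hgap j (by omega) hj) y hyj
    have hR : lam.real (RR (2 * n)) ≤ ε * lam.real (atom n x) / n := by
      rw [real_RR, real_atom]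
      refine le_trans ?_ (est_one hn1 hnumn (m := n) (by omega) (by omega))
      rw [pow_succ]
      have : (0 : ℝ) < 2⁻¹ ^ (2 * n) := by positivity
      linarith
    refine ⟨?_, fun m hm => ?_⟩
    · by_cases hτ : τ
      · right
        refine le_trans (measureReal_mono ?_ (measure_ne_top _ _)) hR
        rintro y ⟨hy1, hy2⟩
        by_contra hyR
        exact hy2 ((hout y hy1 hyR).2 hτ)
      · left
        refine le_trans (measureReal_mono ?_ (measure_ne_top _ _)) hR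
        rintro y ⟨hy1, hy2⟩
        by_contra hyR
        exact hτ ((hout y hy2 hyR).1 hy1)
    · rw [real_atom]
      rcases Nat.lt_or_ge m (2 * n + 2) with hlt | hge
      · refine le_trans (phi_le (q := 2 * n) (k := n) (E := {y | y ∈ atom n x ∧ τ}) ?_ hm ?_)
          (est_one hn1 hnumn (m := m) (by omega) (by omega))
        · intro y z hyz
          constructor
          · rintro ⟨h1, h2⟩
            exact ⟨fun i hi => (hyz i hi).trans (h1 i hi), h2⟩
          · rintro ⟨h1, h2⟩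
            exact ⟨fun i hi => (hyz i hi).symm.trans (h1 i hi), h2⟩
        · intro y hy
          constructor
          · rintro ⟨h1, h2⟩
            exact ⟨h2, (hout y h2 hy).1 h1⟩
          · rintro ⟨h1, h2⟩
            exact ⟨(hout y h1 hy).2 h2, h1⟩
      · refine le_trans (phi_le (q := m - 2) (k := m - 1)
          (E := {y | y ∈ A ∧ y ∈ atom n x ∧ y ∉ RR (m - 2)}) ?_ (by omega) ?_)
          (est_two hge (hnum _ (by omega)))
        · have key : ∀ y z : Cantor, (∀ i ≤ m - 1, z i = y i) →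
              (y ∈ A ∧ y ∈ atom n x ∧ y ∉ RR (m - 2)) →
              (z ∈ A ∧ z ∈ atom n x ∧ z ∉ RR (m - 2)) := by
            rintro y z hyz ⟨h1, h2, h3⟩
            obtain ⟨j, hj, hyj⟩ := not_mem_RR h3
            have hzj : z ∈ cc j := mem_cc_of_agree hyj (by omega : j ≤ m - 1) hyz
            have hnj := hcc y h2 j hyj
            refine ⟨(h.1 j y hyj z hzj fun i hi => hyz i (by omega)).1 h1, ?_, ?_⟩
            · intro i hi
              exact (hyz i (by omega)).trans (h2 i hi)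
            · intro h4
              have h5 : z j = true := h4 j hj
              rw [hzj.2] at h5
              exact absurd h5 (by simp)
          intro y z hyz
          exact ⟨key y z hyz, key z y fun i hi => (hyz i hi).symm⟩
        · intro y hy
          constructor
          · rintro ⟨h1, h2⟩
            exact ⟨h1, h2, hy⟩
          · rintro ⟨h1, h2, _⟩
            exact ⟨h1, h2⟩

theorem propT_BB {I : Set (Set ℕ)} (hI : Good I) : PropT (BB I) := by
  classical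
  intro F hF ε hε
  have h1 : ∃ N : ℕ, ∃ S ∈ I, ∀ A ∈ F, ∃ τ : Prop, Cond N τ S A := by
    induction F using Finset.induction_on with
    | empty => exact ⟨0, ∅, hI.empty, fun A hA => absurd hA (by simp)⟩
    | insert A F _ ih =>
      obtain ⟨N, S, hS, h⟩ := ih fun A hA => hF A (Finset.mem_insert_of_mem hA)
      obtain ⟨N', τ', S', hS', h'⟩ := hF A (Finset.mem_insert_self _ _)
      refine ⟨max N N', S ∪ S', hI.union _ hS _ hS', fun C hC => ?_⟩
      rcases Finset.mem_insert.1 hC with rfl | hC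
      · exact ⟨τ', h'.mono (le_max_right _ _) Set.subset_union_right⟩
      · obtain ⟨τ, hτ⟩ := h C hC
        exact ⟨τ, hτ.mono (le_max_left _ _) Set.subset_union_left⟩
  obtain ⟨N, S, hS, h⟩ := h1
  obtain ⟨K, hK1, hK⟩ := numeric ε hε
  obtain ⟨n, hn, hgap⟩ := hI.gap S hS (max N K)
  have hnN : N ≤ n := (le_max_left _ _).trans hn
  have hnK : K ≤ n := (le_max_right _ _).trans hn
  refine ⟨n, by omega, fun x A hA => ?_⟩
  obtain ⟨τ, hτ⟩ := h A hA
  exact good_level hτ hε hnN (by omega) (fun r hr => hK r (hnK.trans hr)) hgap x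

theorem AA_mem {I : Set (Set ℕ)} {S : Set ℕ} (hS : S ∈ I) : AA S ∈ BB I := by
  refine ⟨0, False, S, hS, ?_, ?_⟩
  · intro j x hx y hy hxy
    rw [mem_AA hx, mem_AA hy, hxy (j + 1) (by omega)]
  · intro j _ hjS x hx
    rw [mem_AA hx]
    simp [hjS]

/-- the point with the first zero at `n`, followed by zeros -/
def pt (n : ℕ) : Cantor := fun i => decide (i < n)

theorem pt_mem (n : ℕ) : pt n ∈ cc n := by
  refine ⟨fun i hi => by simp [pt, hi], by simp [pt]⟩

theorem AA_inter {S : Set ℕ} {n : ℕ} (hn : n ∈ S) :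
    AA S ∩ atom n (pt n) = atom n (pt n) ∩ V (n + 1) false := by
  ext y
  constructor
  · rintro ⟨h1, h2⟩
    have hy : y ∈ cc n := mem_cc_of_agree (pt_mem n) le_rfl h2
    exact ⟨h2, ((mem_AA hy).1 h1).2⟩
  · rintro ⟨h1, h2⟩
    have hy : y ∈ cc n := mem_cc_of_agree (pt_mem n) le_rfl h1
    exact ⟨(mem_AA hy).2 ⟨hn, h2⟩, h1⟩

theorem AA_inter_empty {S : Set ℕ} {n : ℕ} (hn : n ∉ S) : AA S ∩ atom n (pt n) = ∅ := by
  rw [Set.eq_empty_iff_forall_notMem]
  rintro y ⟨h1, h2⟩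
  have hy : y ∈ cc n := mem_cc_of_agree (pt_mem n) le_rfl h2
  exact hn ((mem_AA hy).1 h1).1

theorem AA_diff {S : Set ℕ} {n : ℕ} (hn : n ∈ S) :
    atom n (pt n) ∩ V (n + 1) true ⊆ atom n (pt n) \ AA S := by
  rintro y ⟨h1, h2⟩
  have hy : y ∈ cc n := mem_cc_of_agree (pt_mem n) le_rfl h1
  refine ⟨h1, fun h3 => ?_⟩
  have h4 := ((mem_AA hy).1 h3).2
  have h5 : y (n + 1) = true := h2
  rw [h4] at h5
  exact absurd h5 (by simp)

/-- Two sets `AA S`, `AA T` with `S ∪ T = ℕ` are in no common algebra with property (T). -/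
theorem incompatible {B : Set (Set Cantor)} (hB : PropT B) {S T : Set ℕ} (hST : ∀ n, n ∈ S ∨ n ∈ T)
    (hS : AA S ∈ B) (hT : AA T ∈ B) : False := by
  classical
  obtain ⟨n, hn, h⟩ := hB {AA S, AA T} (by
    intro A hA
    rcases Finset.mem_insert.1 hA with rfl | hA
    · exact hS
    · rw [Finset.mem_singleton.1 hA]
      exact hT) (1 / 4) (by norm_num)
  have key : ∀ X : Set ℕ, n ∈ X → AA X ∈ ({AA S, AA T} : Finset (Set Cantor)) → False := by
    intro X hX hmem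
    obtain ⟨h1, -⟩ := h (pt n) (AA X) hmem
    have h2 : lam.real (AA X ∩ atom n (pt n)) = 2⁻¹ ^ (n + 2) := by
      rw [AA_inter hX, real_atom_inter n (pt n) (n + 1) (by omega)]
    have h3 : (2⁻¹ : ℝ) ^ (n + 2) ≤ lam.real (atom n (pt n) \ AA X) := by
      rw [← real_atom_inter n (pt n) (n + 1) (by omega) true]
      exact measureReal_mono (AA_diff hX) (measure_ne_top _ _)
    rw [real_atom] at h1
    have h4 : (0 : ℝ) < 2⁻¹ ^ (n + 1) := by positivity
    have h5 : (1 / 4 : ℝ) * 2⁻¹ ^ (n + 1) / n < 2⁻¹ ^ (n + 2) := by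
      have h6 : (1 : ℝ) ≤ n := by exact_mod_cast hn
      rw [div_lt_iff₀ (by linarith), pow_succ _ (n + 1)]
      nlinarith
    rcases h1 with h1 | h1
    · rw [h2] at h1
      linarith
    · linarith
  rcases hST n with hnS | hnT
  · exact key S hnS (by simp)
  · exact key T hnT (by simp)

/-- Different sets of places give sets `AA` which differ by a set of positive measure. -/
theorem AA_ne {S T : Set ℕ} {n : ℕ} (hS : n ∈ S) (hT : n ∉ T) : ¬ AA S =ᵐ[lam] AA T := by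
  intro h
  have h1 : lam.real (AA S ∩ atom n (pt n)) = lam.real (AA T ∩ atom n (pt n)) :=
    real_congr (h.inter Filter.EventuallyEq.rfl)
  rw [AA_inter hS, real_atom_inter n (pt n) (n + 1) (by omega), AA_inter_empty hT,
    measureReal_empty] at h1
  have : (0 : ℝ) < 2⁻¹ ^ (n + 2) := by positivity
  linarith

end Pool.Agent.Y418.PT
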