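import Pool.Agent.Y418.PT.Fam

/-!
# The ideals coming from an independent family, and the count
-/

set_option autoImplicit false

open MeasureTheory Cardinal Set
open Pool.Agent.Results.MP_898cae_lc.PropTEqContinuum

namespace Pool.Agent.Y418.PT

abbrev Idx : Type := Σ n : ℕ, Finset (Fin n → Bool)

theorem exists_enc : ∃ e : Idx → ℕ, Function.Injective e := by
  have : Countable Idx := inferInstance
  exact Countable.exists_injective_nat Idx

noncomputable def enc : Idx → ℕ := Classical.choose exists_enc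

theorem enc_inj : Function.Injective enc := Classical.choose_spec exists_enc

/-- the independent family -/
def XX (x : Cantor) : Set ℕ := {k | ∃ p : Idx, enc p = k ∧ (fun i : Fin p.1 => x i) ∈ p.2}

theorem separate (F : Finset Cantor) : ∃ N : ℕ, ∀ x ∈ F, ∀ y ∈ F, x ≠ y → ∃ i < N, x i ≠ y i := by
  classical
  have h1 : ∀ x y : Cantor, ∃ i : ℕ, x ≠ y → x i ≠ y i := by
    intro x y
    by_cases h : x = y
    · exact ⟨0, fun h' => absurd h h'⟩
    · obtain ⟨i, hi⟩ := Function.ne_iff.1 h
      exact ⟨i, fun _ => hi⟩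
  choose d hd using h1
  refine ⟨(F ×ˢ F).sup (fun p => d p.1 p.2) + 1, fun x hx y hy hxy => ⟨d x y, ?_, hd x y hxy⟩⟩
  have : d x y ≤ (F ×ˢ F).sup (fun p => d p.1 p.2) :=
    Finset.le_sup (f := fun p : Cantor × Cantor => d p.1 p.2)
      (Finset.mem_product.2 ⟨hx, hy⟩ : (x, y) ∈ F ×ˢ F)
  omega

theorem independent (F : Finset Cantor) (h : Cantor → Bool) (K : ℕ) :
    ∃ k ≥ K, ∀ x ∈ F, (k ∈ XX x ↔ h x = true) := by
  classical
  obtain ⟨N, hN⟩ := separate F
  let P : ℕ → Idx := fun n => ⟨n, (F.filter (fun x => h x = true)).image (fun x => fun i : Fin n => x i)⟩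
  have hP : Function.Injective (fun n => enc (P n)) := by
    intro m n hmn
    have := enc_inj hmn
    exact congrArg Sigma.fst this
  obtain ⟨n, hn1, hn2⟩ := ((hP.nat_tendsto_atTop.eventually_ge_atTop K).and
    (Filter.eventually_ge_atTop N)).exists
  refine ⟨enc (P n), hn1, fun x hx => ?_⟩
  constructor
  · rintro ⟨p, hp, hmem⟩
    have hpP : p = P n := enc_inj hp
    subst hpP
    obtain ⟨y, hy, hyx⟩ := Finset.mem_image.1 hmem
    rw [Finset.mem_filter] at hy
    by_cases hxy : x = y
    · rw [hxy]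
      exact hy.2
    · exfalso
      obtain ⟨i, hi, hne⟩ := hN x hx y hy.1 hxy
      have := congrFun hyx ⟨i, by omega⟩
      exact hne this.symm
  · intro hx1
    exact ⟨P n, rfl, Finset.mem_image.2 ⟨x, Finset.mem_filter.2 ⟨hx, hx1⟩, rfl⟩⟩

/-- the unions of blocks `[3^k, 3^(k+1))` -/
def SS (f : Cantor → Bool) (x : Cantor) : Set ℕ := {n | Nat.log 3 n ∈ XX x ↔ f x = true}

def II (f : Cantor → Bool) : Set (Set ℕ) :=
  {S | ∃ F : Finset Cantor, ∀ n ∈ S, ∃ x ∈ F, n ∈ SS f x}

theorem good_II (f : Cantor → Bool) : Good (II f) where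
  empty := ⟨∅, fun n hn => absurd hn (by simp)⟩
  union := by
    classical
    rintro S ⟨F, hF⟩ T ⟨G, hG⟩
    refine ⟨F ∪ G, ?_⟩
    rintro n (hn | hn)
    · obtain ⟨x, hx, h⟩ := hF n hn
      exact ⟨x, Finset.mem_union_left _ hx, h⟩
    · obtain ⟨x, hx, h⟩ := hG n hn
      exact ⟨x, Finset.mem_union_right _ hx, h⟩
  gap := by
    rintro S ⟨F, hF⟩ K
    obtain ⟨k, hk, h⟩ := independent F (fun x => ! f x) K
    refine ⟨3 ^ k, hk.trans (Nat.lt_pow_self (by norm_num)).le, fun j hj1 hj2 hjS => ?_⟩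
    obtain ⟨x, hx, hxj⟩ := hF j hjS
    have hlog : Nat.log 3 j = k := by
      apply Nat.log_eq_of_pow_le_of_lt_pow hj1
      have : 0 < 3 ^ k := by positivity
      rw [pow_succ]
      omega
    have h1 := h x hx
    have h2 : (Nat.log 3 j ∈ XX x ↔ f x = true) := hxj
    rw [hlog] at h2
    cases hfx : f x <;> simp [hfx] at h1 h2 <;> tauto

theorem SS_mem_II (f : Cantor → Bool) (x : Cantor) {T : Set ℕ} (hT : T ⊆ SS f x) : T ∈ II f :=
  ⟨{x}, fun _ hn => ⟨x, by simp, hT hn⟩⟩

theorem SS_cover {f g : Cantor → Bool} {x : Cantor} (h : f x ≠ g x) (n : ℕ) :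
    n ∈ SS f x ∨ n ∈ SS g x := by
  simp only [SS, Set.mem_setOf_eq]
  cases hf : f x <;> cases hg : g x <;> simp_all <;> tauto

theorem SS_infinite (f : Cantor → Bool) (x : Cantor) : (SS f x).Infinite := by
  rw [Set.infinite_iff_exists_gt]
  intro K
  obtain ⟨k, hk, h⟩ := independent {x} f (K + 1)
  refine ⟨3 ^ k, ?_, ?_⟩
  · have h1 := h x (by simp)
    change (Nat.log 3 (3 ^ k) ∈ XX x ↔ f x = true)
    rw [Nat.log_pow (by norm_num)]
    exact h1
  · have := (Nat.lt_pow_self (by norm_num : 1 < 3) : k < 3 ^ k)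
    omega

/-! ### Maximal algebras above a given one -/

theorem exists_max_above {C : Set (Set Cantor)} (h1 : IsAlg C) (h2 : PropT C) :
    ∃ B : Set (Set Cantor), C ⊆ B ∧ IsMaxT B := by
  classical
  obtain ⟨B, hCB, hB⟩ := zorn_subset_nonempty {B : Set (Set Cantor) | IsAlg B ∧ PropT B} (by
    intro c hcS hc hne
    refine ⟨⋃₀ c, ⟨⟨?_, ?_, ?_, ?_⟩, ?_⟩, fun s hs => Set.subset_sUnion_of_mem hs⟩
    · rintro A ⟨B, hB, hA⟩
      exact (hcS hB).1.borel A hA
    · intro A hA
      obtain ⟨B, hB⟩ := hne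
      exact ⟨B, hB, (hcS hB).1.clopen A hA⟩
    · rintro A ⟨B, hB, hA⟩
      exact ⟨B, hB, (hcS hB).1.compl A hA⟩
    · intro A hA A' hA'
      obtain ⟨B, hB, h⟩ := exists_mem_of_chain hc hne {A, A'} (by
        intro D hD
        simp only [Finset.mem_insert, Finset.mem_singleton] at hD
        rcases hD with rfl | rfl
        · exact hA
        · exact hA')
      exact ⟨B, hB, (hcS hB).1.union A (h A (by simp)) A' (h A' (by simp))⟩
    · intro F hF ε hε
      obtain ⟨B, hB, h⟩ := exists_mem_of_chain hc hne F hF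
      exact (hcS hB).2 F h ε hε) C ⟨h1, h2⟩
  exact ⟨B, hCB, hB⟩

theorem exists_M (f : Cantor → Bool) : ∃ B : Set (Set Cantor), BB (II f) ⊆ B ∧ IsMaxT B :=
  exists_max_above (isAlg_BB (good_II f)) (propT_BB (good_II f))

noncomputable def MM (f : Cantor → Bool) : Set (Set Cantor) := Classical.choose (exists_M f)

theorem MM_sub (f : Cantor → Bool) : BB (II f) ⊆ MM f := (Classical.choose_spec (exists_M f)).1

theorem MM_max (f : Cantor → Bool) : IsMaxT (MM f) := (Classical.choose_spec (exists_M f)).2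

theorem MM_inj : Function.Injective MM := by
  intro f g hfg
  by_contra hne
  obtain ⟨x, hx⟩ := Function.ne_iff.1 hne
  refine incompatible (MM_max f).1.2 (SS_cover hx) ?_ ?_
  · exact MM_sub f (AA_mem (SS_mem_II f x subset_rfl))
  · rw [hfg]
    exact MM_sub g (AA_mem (SS_mem_II g x subset_rfl))

theorem null_mem {B : Set (Set Cantor)} (hB : IsMaxT B) {A : Set Cantor}
    (hA : MeasurableSet[borel Cantor] A) (h0 : lam A = 0) : A ∈ B := by
  apply hull_subset hB
  exact ⟨hA, ∅, hB.1.1.clopen ∅ isClopen_empty, (ae_eq_empty).2 h0⟩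

/-- the classes modulo null sets of the members of `B` -/
def classes (B : Set (Set Cantor)) : Set (Set (Set Cantor)) :=
  (fun A : Set Cantor => {A' : Set Cantor | A =ᵐ[lam] A'}) '' B

theorem classes_MM (f : Cantor → Bool) : #(classes (MM f)) = 𝔠 := by
  classical
  apply le_antisymm
  · exact (Cardinal.mk_image_le).trans (mk_of_isMaxT (MM_max f)).le
  · let x0 : Cantor := fun _ => true
    let S := SS f x0
    have hS : (setOf (fun n => n ∈ S)).Infinite := SS_infinite f x0
    let T : Cantor → Set ℕ := fun t => {n | n ∈ S ∧ t (Nat.count (fun n => n ∈ S) n) = true}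
    have hT : ∀ t, AA (T t) ∈ MM f := fun t =>
      MM_sub f (AA_mem (SS_mem_II f x0 fun n hn => hn.1))
    have hinj : Function.Injective (fun t : Cantor =>
        (⟨{A' : Set Cantor | AA (T t) =ᵐ[lam] A'}, AA (T t), hT t, rfl⟩ : classes (MM f))) := by
      intro s t hst
      by_contra hne
      have h1 : {A' : Set Cantor | AA (T s) =ᵐ[lam] A'} = {A' : Set Cantor | AA (T t) =ᵐ[lam] A'} :=
        congrArg Subtype.val hst
      have h2 : AA (T s) =ᵐ[lam] AA (T t) := by
        have : AA (T t) ∈ {A' : Set Cantor | AA (T t) =ᵐ[lam] A'} := by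
          change AA (T t) =ᵐ[lam] AA (T t)
          exact Filter.EventuallyEq.rfl
        rw [← h1] at this
        exact this
      obtain ⟨k, hk⟩ := Function.ne_iff.1 hne
      have hn1 : Nat.nth (fun n => n ∈ S) k ∈ S := Nat.nth_mem_of_infinite hS k
      have hn2 : Nat.count (fun n => n ∈ S) (Nat.nth (fun n => n ∈ S) k) = k :=
        Nat.count_nth_of_infinite hS k
      have h3 : ∀ u : Cantor, Nat.nth (fun n => n ∈ S) k ∈ T u ↔ u k = true := by
        intro u
        change (_ ∧ u (Nat.count (fun n => n ∈ S) (Nat.nth (fun n => n ∈ S) k)) = true) ↔ _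
        rw [hn2]
        exact ⟨fun h => h.2, fun h => ⟨hn1, h⟩⟩
      cases hs : s k <;> cases ht : t k
      · exact hk (hs.trans ht.symm)
      · exact AA_ne ((h3 t).2 ht) (fun h => by
          have := (h3 s).1 h
          rw [hs] at this
          exact absurd this (by simp)) h2.symm
      · exact AA_ne ((h3 s).2 hs) (fun h => by
          have := (h3 t).1 h
          rw [ht] at this
          exact absurd this (by simp)) h2
      · exact hk (hs.trans ht.symm)
    have h4 := Cardinal.mk_le_of_injective hinj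
    have h5 : #Cantor = 𝔠 := by simp [Cantor]
    rwa [h5] at h4

theorem mk_fun : #(Cantor → Bool) = 2 ^ 𝔠 := by
  have h5 : #Cantor = 𝔠 := by simp [Cantor]
  rw [← Cardinal.power_def, h5]
  simp

theorem mk_measurable : #{A : Set Cantor | MeasurableSet[borel Cantor] A} ≤ 𝔠 := by
  have h0 : {A : Set Cantor | MeasurableSet[borel Cantor] A} = {A : Set Cantor | MeasurableSet A} := by
    ext A
    simp only [Set.mem_setOf_eq]
    rw [← BorelSpace.measurable_eq (α := Cantor)]
  rw [h0]
  have : MeasurableSpace.CountablyGenerated Cantor := inferInstance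
  obtain ⟨s, hs, hs'⟩ := this.isCountablyGenerated
  rw [hs']
  exact MeasurableSpace.cardinal_measurableSet_le_continuum
    ((Cardinal.le_aleph0_iff_set_countable.2 hs).trans Cardinal.aleph0_le_continuum)

theorem mk_max_le : #{B : Set (Set Cantor) | IsMaxT B} ≤ 2 ^ 𝔠 := by
  have h1 : {B : Set (Set Cantor) | IsMaxT B} ⊆
      𝒫 {A : Set Cantor | MeasurableSet[borel Cantor] A} := fun B hB A hA => hB.1.1.borel A hA
  refine (Cardinal.mk_le_mk_of_subset h1).trans ?_
  rw [Cardinal.mk_powerset]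
  exact Cardinal.power_le_power_left two_ne_zero mk_measurable

theorem le_mk_max : 2 ^ 𝔠 ≤ #{B : Set (Set Cantor) | IsMaxT B ∧ #(classes B) = 𝔠} := by
  have h1 : Function.Injective (fun f : Cantor → Bool =>
      (⟨MM f, MM_max f, classes_MM f⟩ : {B : Set (Set Cantor) | IsMaxT B ∧ #(classes B) = 𝔠})) := by
    intro f g hfg
    exact MM_inj (congrArg Subtype.val hfg)
  have h2 := Cardinal.mk_le_of_injective h1
  rwa [mk_fun] at h2

end Pool.Agent.Y418.PT
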